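import Pool.Agent.W170.Z3.Stm
import Pool.Agent.H337R2.Count
import Pool.Agent.H574R2.D3.H2

/-!
# Tasks H1 and H2: exponents and principal coefficients at `n = p`
-/

open Polynomial Pool.Agent.H337R2

namespace Pool.Agent.W962.Z3

open Pool.Agent.W170.Z3

noncomputable section

/-- the exponent at `n = p` is `0` -/
theorem H1 : ∀ {p : ℕ}, p.Prime → ∀ k, eF p p k = 0 := by
  intro p hp k
  have hpp : (0 : ℤ) < p := by exact_mod_cast hp.pos
  have hd : ∀ a : ℕ, a * p / p = a := fun a => Nat.mul_div_cancel a hp.pos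
  have hc : ∀ a b : ℕ, a ≤ b → (cnt p (a * p + 1) (b * p) k : ℤ) = b - a := by
    intro a b hab
    rw [cnt_eq p (a * p + 1) (b * p) k hp.pos (by
      have : a * p ≤ b * p := Nat.mul_le_mul_right p hab
      omega)]
    have h1 : (((b * p : ℕ) : ℤ) - k) / p = (-(k : ℤ)) / p + b := by
      rw [show ((b * p : ℕ) : ℤ) - k = -(k : ℤ) + b * p by push_cast; ring,
        Int.add_mul_ediv_right _ _ hpp.ne']
    have h2 : (((a * p + 1 : ℕ) : ℤ) - 1 - k) / p = (-(k : ℤ)) / p + a := by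
      rw [show ((a * p + 1 : ℕ) : ℤ) - 1 - k = -(k : ℤ) + a * p by push_cast; ring,
        Int.add_mul_ediv_right _ _ hpp.ne']
    rw [h1, h2]; ring
  have h0 := hc 0 4 (by norm_num)
  have h0' := hc 0 6 (by norm_num)
  rw [zero_mul, zero_add] at h0 h0'
  unfold eF
  rw [hd, hd, hd, h0, h0', hc 5 12 (by norm_num)]
  norm_num

namespace H2y

set_option linter.unusedSectionVars false

open Pool.Agent.H336R2.HD.H2aux
open Pool.Agent.H574R2.D3.H2x (cls mem_cls prod_cls)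

variable {p : ℕ} [hp : Fact p.Prime]

def SA (p c r : ℕ) : Finset ℕ := Finset.Icc 1 (c * p) \ cls p r (Finset.range c)
def SC (p r : ℕ) : Finset ℕ := Finset.Icc (5 * p + 1) (12 * p) \ cls p r (Finset.Icc 5 11)

lemma not_dvd_gen {r m : ℕ} (hr1 : 1 ≤ r) (hr2 : r ≤ p) (hm0 : 1 ≤ m) (hm : m ≤ 12 * p)
    (h : ∀ i, i < 12 → r + i * p ≠ m) : ¬ (p : ℤ) ∣ (m : ℤ) - r := by
  rintro ⟨c, hc⟩
  have hpp : (0 : ℤ) < p := by exact_mod_cast hp.out.pos
  have hc1 : c < 12 := by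
    by_contra h
    have h5 : (p : ℤ) * 12 ≤ p * c := mul_le_mul_of_nonneg_left (by omega) hpp.le
    omega
  have hc2 : -1 < c := by
    by_contra h
    have h5 : (p : ℤ) * c ≤ p * (-1) := mul_le_mul_of_nonneg_left (by omega) hpp.le
    omega
  apply h c.toNat (by omega)
  have h6 : ((c.toNat : ℕ) : ℤ) = c := Int.toNat_of_nonneg (by omega)
  have h7 : ((r + c.toNat * p : ℕ) : ℤ) = m := by
    push_cast
    rw [h6]
    linarith
  exact_mod_cast h7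

lemma SA_not_dvd {c r m : ℕ} (hc : c ≤ 12) (hr1 : 1 ≤ r) (hr2 : r ≤ p) (hm : m ∈ SA p c r) :
    ¬ (p : ℤ) ∣ (m : ℤ) - r := by
  unfold SA at hm
  rw [Finset.mem_sdiff, Finset.mem_Icc, mem_cls] at hm
  obtain ⟨⟨h0, h1⟩, h2⟩ := hm
  have hcp : c * p ≤ 12 * p := Nat.mul_le_mul_right p hc
  apply not_dvd_gen hr1 hr2 h0 (by omega)
  intro i hi hm
  apply h2
  refine ⟨i, ?_, hm⟩
  rw [Finset.mem_range]
  by_contra h
  have : c * p ≤ i * p := Nat.mul_le_mul_right p (by omega)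
  omega

lemma SC_not_dvd {r m : ℕ} (hr1 : 1 ≤ r) (hr2 : r ≤ p) (hm : m ∈ SC p r) :
    ¬ (p : ℤ) ∣ (m : ℤ) - r := by
  unfold SC at hm
  rw [Finset.mem_sdiff, Finset.mem_Icc, mem_cls] at hm
  obtain ⟨⟨h1, h3⟩, h2⟩ := hm
  apply not_dvd_gen hr1 hr2 (by omega) (by omega)
  intro i hi hm
  apply h2
  refine ⟨i, ?_, hm⟩
  rw [Finset.mem_Icc]
  constructor
  · by_contra h
    have : i * p ≤ 4 * p := Nat.mul_le_mul_right p (by omega)
    omega
  · omega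

/-- the exact part -/
def FM (p : ℕ) (j e : ℕ) : PowerSeries ℚ :=
  (∏ a ∈ Finset.range 4, (PowerSeries.X + PowerSeries.C (((a : ℚ) - j) * p)) ^ 2) *
  (∏ a ∈ (Finset.Icc 4 5 : Finset ℕ), (PowerSeries.X + PowerSeries.C (((a : ℚ) - j) * p))) *
  (∏ b ∈ (Finset.Icc 5 11).erase j, iv (((b : ℚ) - j) * p) ^ 2) *
  (PowerSeries.X + PowerSeries.C (-(j : ℚ) * p)) ^ e

lemma sum_ml {j : ℕ} (hj3 : 5 ≤ j) (hj9 : j ≤ 11) :
    ∑ _b ∈ (Finset.Icc 5 11).erase j, 2 = 12 := by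
  interval_cases j <;> decide

lemma FM_eq (hp0 : (p : ℚ) ≠ 0) {j : ℕ} (hj3 : 5 ≤ j) (hj9 : j ≤ 11) (e : ℕ) : FM p j e =
    PowerSeries.C ((p : ℚ) ^ 10 * ((p : ℚ)⁻¹) ^ 12 * (p : ℚ) ^ e) *
      PowerSeries.rescale ((p : ℚ)⁻¹) (ser j e) := by
  have hprod : ∏ b ∈ (Finset.Icc 5 11).erase j, iv (((b : ℚ) - j) * p) ^ 2 =
      PowerSeries.C ((p : ℚ)⁻¹) ^ 12 * PowerSeries.rescale ((p : ℚ)⁻¹)
        (∏ b ∈ (Finset.Icc 5 11).erase j, iv ((b : ℚ) - j) ^ 2) := by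
    rw [map_prod]
    have h1 : PowerSeries.C ((p : ℚ)⁻¹) ^ 12 =
        ∏ _b ∈ (Finset.Icc 5 11).erase j, (PowerSeries.C ((p : ℚ)⁻¹) ^ 2 : PowerSeries ℚ) := by
      rw [Finset.prod_pow_eq_pow_sum, sum_ml hj3 hj9]
    rw [h1, ← Finset.prod_mul_distrib]
    apply Finset.prod_congr rfl
    intro b _
    rw [iv_rescale hp0, mul_pow, map_pow]
  have hprodA : ∏ a ∈ Finset.range 4,
      (PowerSeries.X + PowerSeries.C (((a : ℚ) - j) * p) : PowerSeries ℚ) ^ 2 =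
      PowerSeries.C (p : ℚ) ^ 8 * PowerSeries.rescale ((p : ℚ)⁻¹)
        (∏ a ∈ Finset.range 4, (PowerSeries.X + PowerSeries.C ((a : ℚ) - j)) ^ 2) := by
    rw [map_prod]
    have h1 : PowerSeries.C (p : ℚ) ^ 8 =
        ∏ _b ∈ Finset.range 4, (PowerSeries.C (p : ℚ) ^ 2 : PowerSeries ℚ) := by
      rw [Finset.prod_const, Finset.card_range, ← pow_mul]
    rw [h1, ← Finset.prod_mul_distrib]
    apply Finset.prod_congr rfl
    intro b _
    rw [lin_rescale hp0, mul_pow, map_pow]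
  have hprodB : ∏ a ∈ (Finset.Icc 4 5 : Finset ℕ),
      (PowerSeries.X + PowerSeries.C (((a : ℚ) - j) * p) : PowerSeries ℚ) =
      PowerSeries.C (p : ℚ) ^ 2 * PowerSeries.rescale ((p : ℚ)⁻¹)
        (∏ a ∈ (Finset.Icc 4 5 : Finset ℕ), (PowerSeries.X + PowerSeries.C ((a : ℚ) - j))) := by
    rw [map_prod]
    have h1 : PowerSeries.C (p : ℚ) ^ 2 =
        ∏ _b ∈ (Finset.Icc 4 5 : Finset ℕ), (PowerSeries.C (p : ℚ) : PowerSeries ℚ) := by
      rw [Finset.prod_const]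
      rfl
    rw [h1, ← Finset.prod_mul_distrib]
    apply Finset.prod_congr rfl
    intro b _
    rw [lin_rescale hp0]
  unfold FM ser
  rw [hprod, hprodA, hprodB, lin_rescale hp0]
  generalize (∏ b ∈ (Finset.Icc 5 11).erase j, iv ((b : ℚ) - j) ^ 2) = PI0
  generalize (∏ a ∈ Finset.range 4,
    (PowerSeries.X + PowerSeries.C ((a : ℚ) - j) : PowerSeries ℚ) ^ 2) = PI1
  generalize (∏ a ∈ (Finset.Icc 4 5 : Finset ℕ),
    (PowerSeries.X + PowerSeries.C ((a : ℚ) - j) : PowerSeries ℚ)) = PI2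
  simp only [map_mul, map_pow]
  ring

lemma FM_coeff (hp0 : (p : ℚ) ≠ 0) {j : ℕ} (hj3 : 5 ≤ j) (hj9 : j ≤ 11) (e l : ℕ) :
    PowerSeries.coeff l (FM p j e) =
    (p : ℚ) ^ 10 * ((p : ℚ)⁻¹) ^ 12 * (p : ℚ) ^ e *
      (((p : ℚ)⁻¹) ^ l * PowerSeries.coeff l (ser j e)) := by
  rw [FM_eq hp0 hj3 hj9, PowerSeries.coeff_C_mul, PowerSeries.coeff_rescale]

lemma FM_PB (hp100 : 100 ≤ p) {j : ℕ} (hj3 : 5 ≤ j) (hj9 : j ≤ 11) (e : ℕ) :
    PB p (p : ℚ) (((p : ℚ)⁻¹) ^ 10 * (p : ℚ) ^ 12 * ((p : ℚ)⁻¹) ^ e) (FM p j e) := by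
  have hp0 : (0 : ℚ) ≤ p := p_pos'.le
  have hinv : (0 : ℚ) ≤ (p : ℚ)⁻¹ := inv_nonneg.2 hp0
  have e0 : ∀ a : ℕ, PB p (p : ℚ) (p : ℚ)⁻¹
      (PowerSeries.X + PowerSeries.C (((a : ℚ) - j) * p)) := fun a =>
    PB_linp ((a : ℤ) - (j : ℤ)) (by push_cast; ring)
  have e1 : PB p (p : ℚ) (p : ℚ)⁻¹ (PowerSeries.X + PowerSeries.C (-(j : ℚ) * p)) :=
    PB_linp (-(j : ℤ)) (by push_cast; ring)
  have fA : PB p (p : ℚ) (∏ _a ∈ Finset.range 4, ((p : ℚ)⁻¹) ^ 2)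
      (∏ a ∈ Finset.range 4, (PowerSeries.X + PowerSeries.C (((a : ℚ) - j) * p)) ^ 2) := by
    apply PB.prod _ _ _ hp0
    · intro b _; positivity
    · intro b _
      exact PB.pow hp0 hinv (e0 b) 2
  have fB : PB p (p : ℚ) (∏ _a ∈ (Finset.Icc 4 5 : Finset ℕ), (p : ℚ)⁻¹)
      (∏ a ∈ (Finset.Icc 4 5 : Finset ℕ),
        (PowerSeries.X + PowerSeries.C (((a : ℚ) - j) * p))) := by
    apply PB.prod _ _ _ hp0
    · intro b _; positivity
    · intro b _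
      exact e0 b
  have f2 : PB p (p : ℚ) (∏ _b ∈ (Finset.Icc 5 11).erase j, (p : ℚ) ^ 2)
      (∏ b ∈ (Finset.Icc 5 11).erase j, iv (((b : ℚ) - j) * p) ^ 2) := by
    apply PB.prod _ _ _ hp0
    · intro b _; positivity
    · intro b hb
      rw [Finset.mem_erase, Finset.mem_Icc] at hb
      apply PB.pow hp0 hp0
      apply PB_ivp (a := (b : ℤ) - j) (by push_cast; ring)
      apply not_dvd_of_lt
      · have := hb.1
        omega
      · omega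
      · omega
  have f3 := PB.pow hp0 hinv e1 e
  rw [Finset.prod_pow_eq_pow_sum, sum_ml hj3 hj9] at f2
  have hA : ∏ _a ∈ Finset.range 4, ((p : ℚ)⁻¹) ^ 2 = ((p : ℚ)⁻¹) ^ 8 := by
    rw [Finset.prod_const, Finset.card_range, ← pow_mul]
  have hB : ∏ _a ∈ (Finset.Icc 4 5 : Finset ℕ), (p : ℚ)⁻¹ = ((p : ℚ)⁻¹) ^ 2 := by
    rw [Finset.prod_const]
    rfl
  rw [hA] at fA
  rw [hB] at fB
  have h6 : ((p : ℚ)⁻¹) ^ 10 = ((p : ℚ)⁻¹) ^ 8 * ((p : ℚ)⁻¹) ^ 2 := by ring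
  rw [h6]
  exact PB.mul hp0 (by positivity) (by positivity) (PB.mul hp0 (by positivity) (by positivity)
    (PB.mul hp0 (by positivity) (by positivity) fA fB) f2) f3

/-- the constant -/
def wM (p r : ℕ) : ℚ :=
  (∏ m ∈ SA p 4 r, ((m : ℚ) - r)) * (∏ m ∈ SA p 6 r, ((m : ℚ) - r)) *
  (∏ r' ∈ (Finset.Icc 1 p).erase r, ((r' : ℚ) - r) ^ 4) *
  ∏ m ∈ SC p r, (((m : ℚ) - r)⁻¹) ^ 2

/-- the unit part -/
def GM (p r k : ℕ) : PowerSeries ℚ :=
  (∏ m ∈ SA p 4 r, (PowerSeries.X + PowerSeries.C (-(k : ℚ) + m))) *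
  (∏ m ∈ SA p 6 r, (PowerSeries.X + PowerSeries.C (-(k : ℚ) + m))) *
  (∏ r' ∈ (Finset.Icc 1 p).erase r, (PowerSeries.X + PowerSeries.C (-(k : ℚ) + r')) ^ 4) *
  (∏ m ∈ SC p r, iv (-(k : ℚ) + m) ^ 2)

lemma GM_UC {r : ℕ} (hr1 : 1 ≤ r) (hr2 : r ≤ p) (j : ℕ) :
    UC p (GM p r (r + j * p)) (wM p r) := by
  unfold GM wM
  refine UC.mul (UC.mul (UC.mul ?_ ?_) ?_) ?_
  · apply UC.prod
    intro m hm
    apply UC.lin (a := -((r + j * p : ℕ) : ℤ) + m) (a0 := (m : ℤ) - r)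
    · push_cast; ring
    · push_cast; ring
    · exact SA_not_dvd (by norm_num) hr1 hr2 hm
    · refine ⟨-j, ?_⟩
      push_cast; ring
  · apply UC.prod
    intro m hm
    apply UC.lin (a := -((r + j * p : ℕ) : ℤ) + m) (a0 := (m : ℤ) - r)
    · push_cast; ring
    · push_cast; ring
    · exact SA_not_dvd (by norm_num) hr1 hr2 hm
    · refine ⟨-j, ?_⟩
      push_cast; ring
  · apply UC.prod
    intro r' hr'
    rw [Finset.mem_erase, Finset.mem_Icc] at hr'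
    apply UC.pow
    apply UC.lin (a := -((r + j * p : ℕ) : ℤ) + r') (a0 := (r' : ℤ) - r)
    · push_cast; ring
    · push_cast; ring
    · exact not_dvd_of_lt (by omega) (by omega) (by omega)
    · refine ⟨-j, ?_⟩
      push_cast; ring
  · apply UC.prod
    intro m hm
    apply UC.pow
    apply UC.iv (a := -((r + j * p : ℕ) : ℤ) + m) (a0 := (m : ℤ) - r)
    · push_cast; ring
    · push_cast; ring
    · exact SC_not_dvd hr1 hr2 hm
    · refine ⟨-j, ?_⟩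
      push_cast; ring

/-! ### the numerator -/

lemma TS_num2 (p r e k : ℕ) : TS (-(k : ℚ)) (PF p * ((X + C (r : ℚ)) ^ e * OT p r 4)) =
    PowerSeries.C (cF p) *
    ((∏ m ∈ Finset.Icc 1 (4 * p), (PowerSeries.X + PowerSeries.C (-(k : ℚ) + m))) *
      ∏ m ∈ Finset.Icc 1 (6 * p), (PowerSeries.X + PowerSeries.C (-(k : ℚ) + m))) *
    ((PowerSeries.X + PowerSeries.C (-(k : ℚ) + r)) ^ e *
    ∏ r' ∈ (Finset.Icc 1 p).erase r, (PowerSeries.X + PowerSeries.C (-(k : ℚ) + r')) ^ 4) := by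
  unfold PF OT
  simp only [map_mul, map_pow, map_prod, TS_C, TS_lin]

lemma VV_den2 (hp100 : 100 ≤ p) {r : ℕ} (hr1 : 1 ≤ r) (hr2 : r ≤ p) {j : ℕ} (hj3 : 5 ≤ j)
    (hj9 : j ≤ 11) :
    VV ((sF p).erase (r + j * p)) mF (-((r + j * p : ℕ) : ℚ)) =
      (∏ m ∈ SC p r, iv (-((r + j * p : ℕ) : ℚ) + m) ^ 2) *
      ∏ b ∈ (Finset.Icc 5 11).erase j, iv (((b : ℚ) - j) * p) ^ 2 := by
  have hjp1 : 5 * p ≤ j * p := Nat.mul_le_mul_right p hj3
  have hjp2 : j * p ≤ 11 * p := Nat.mul_le_mul_right p hj9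
  have hVV : VV ((sF p).erase (r + j * p)) mF (-((r + j * p : ℕ) : ℚ)) =
      ∏ m ∈ (sF p).erase (r + j * p), iv (-((r + j * p : ℕ) : ℚ) + m) ^ 2 := rfl
  rw [hVV]
  have hsub : cls p r ((Finset.Icc 5 11).erase j) ⊆ (sF p).erase (r + j * p) := by
    intro m hm
    rw [mem_cls] at hm
    obtain ⟨i, hi, rfl⟩ := hm
    rw [Finset.mem_erase, Finset.mem_Icc] at hi
    have hi1 : 5 * p ≤ i * p := Nat.mul_le_mul_right p hi.2.1
    have hi2 : i * p ≤ 11 * p := Nat.mul_le_mul_right p hi.2.2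
    rw [Finset.mem_erase, Finset.mem_Icc]
    refine ⟨?_, by omega, by omega⟩
    intro h
    apply hi.1
    have h7 : i * p = j * p := by omega
    exact Nat.eq_of_mul_eq_mul_right (by omega) h7
  rw [prod_cls (p := p) r _ _ hsub, mul_comm]
  have hset : (sF p).erase (r + j * p) \ cls p r ((Finset.Icc 5 11).erase j) = SC p r := by
    ext m
    unfold SC
    rw [Finset.mem_sdiff, Finset.mem_sdiff, Finset.mem_erase, mem_cls, mem_cls]
    constructor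
    · rintro ⟨⟨h1, h2⟩, h3⟩
      refine ⟨h2, ?_⟩
      rintro ⟨i, hi, hm⟩
      apply h3
      refine ⟨i, ?_, hm⟩
      rw [Finset.mem_erase]
      refine ⟨?_, hi⟩
      rintro rfl
      exact h1 hm.symm
    · rintro ⟨h1, h2⟩
      refine ⟨⟨?_, h1⟩, ?_⟩
      · rintro rfl
        exact h2 ⟨j, by rw [Finset.mem_Icc]; omega, rfl⟩
      · rintro ⟨i, hi, hm⟩
        exact h2 ⟨i, Finset.mem_of_mem_erase hi, hm⟩
  rw [hset]
  have h6 : ∀ b : ℕ, -((r + j * p : ℕ) : ℚ) + ((r + b * p : ℕ) : ℚ) = ((b : ℚ) - j) * p := by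
    intro b
    push_cast
    ring
  have h7 : ∏ i ∈ (Finset.Icc 5 11).erase j,
      iv (-((r + j * p : ℕ) : ℚ) + ((r + i * p : ℕ) : ℚ)) ^ 2 =
      ∏ b ∈ (Finset.Icc 5 11).erase j, iv (((b : ℚ) - j) * p) ^ 2 := by
    refine Finset.prod_congr rfl fun b hb => ?_
    rw [h6]
  rw [h7]

lemma split_zeros {r : ℕ} (hr1 : 1 ≤ r) (hr2 : r ≤ p) (j c : ℕ) :
    ∏ m ∈ Finset.Icc 1 (c * p),
      (PowerSeries.X + PowerSeries.C (-((r + j * p : ℕ) : ℚ) + m) : PowerSeries ℚ) =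
    (∏ i ∈ Finset.range c, (PowerSeries.X + PowerSeries.C (((i : ℚ) - j) * p))) *
      ∏ m ∈ SA p c r, (PowerSeries.X + PowerSeries.C (-((r + j * p : ℕ) : ℚ) + m)) := by
  have h6 : ∀ b : ℕ, -((r + j * p : ℕ) : ℚ) + ((r + b * p : ℕ) : ℚ) = ((b : ℚ) - j) * p := by
    intro b
    push_cast
    ring
  rw [prod_cls (p := p) r (Finset.Icc 1 (c * p)) (Finset.range c)]
  · simp only [h6]
    rfl
  · intro m hm
    rw [mem_cls] at hm
    obtain ⟨i, hi, rfl⟩ := hm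
    rw [Finset.mem_range] at hi
    have hi2 : (i + 1) * p ≤ c * p := Nat.mul_le_mul_right p (by omega)
    rw [Finset.mem_Icc]
    rw [add_mul, one_mul] at hi2
    omega

/-- the factorisation -/
lemma factor2 (hp100 : 100 ≤ p) {r : ℕ} (hr1 : 1 ≤ r) (hr2 : r ≤ p) {j : ℕ} (hj3 : 5 ≤ j)
    (hj9 : j ≤ 11) (e : ℕ) :
    TS (-((r + j * p : ℕ) : ℚ)) (PF p * ((X + C (r : ℚ)) ^ e * OT p r 4)) *
      VV ((sF p).erase (r + j * p)) mF (-((r + j * p : ℕ) : ℚ)) =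
    PowerSeries.C (cF p) * (FM p j e * GM p r (r + j * p)) := by
  rw [TS_num2, VV_den2 hp100 hr1 hr2 hj3 hj9]
  have v1 : -((r + j * p : ℕ) : ℚ) + (r : ℚ) = -(j : ℚ) * p := by push_cast; ring
  have hsix : ∏ i ∈ Finset.range 6,
      (PowerSeries.X + PowerSeries.C (((i : ℚ) - j) * p) : PowerSeries ℚ) =
      (∏ i ∈ Finset.range 4, (PowerSeries.X + PowerSeries.C (((i : ℚ) - j) * p))) *
      ∏ a ∈ (Finset.Icc 4 5 : Finset ℕ), (PowerSeries.X + PowerSeries.C (((a : ℚ) - j) * p)) := by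
    rw [show (Finset.Icc 4 5 : Finset ℕ) = {4, 5} from rfl, Finset.prod_pair (by norm_num),
      Finset.prod_range_succ, Finset.prod_range_succ, mul_assoc]
  rw [split_zeros hr1 hr2 j 4, split_zeros hr1 hr2 j 6, v1, hsix]
  unfold FM GM
  rw [Finset.prod_pow (Finset.range 4) 2
    (fun i : ℕ => (PowerSeries.X + PowerSeries.C (((i : ℚ) - j) * p) : PowerSeries ℚ))]
  generalize ∏ m ∈ SA p 4 r, (PowerSeries.X + PowerSeries.C (-((r + j * p : ℕ) : ℚ) + m) : PowerSeries ℚ) = a1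
  generalize ∏ m ∈ SA p 6 r, (PowerSeries.X + PowerSeries.C (-((r + j * p : ℕ) : ℚ) + m) : PowerSeries ℚ) = a2
  generalize ∏ m ∈ SC p r, iv (-((r + j * p : ℕ) : ℚ) + m) ^ 2 = a3
  generalize ∏ b ∈ (Finset.Icc 5 11).erase j, iv (((b : ℚ) - j) * p) ^ 2 = a4
  generalize ∏ r' ∈ (Finset.Icc 1 p).erase r,
    (PowerSeries.X + PowerSeries.C (-((r + j * p : ℕ) : ℚ) + r') : PowerSeries ℚ) ^ 4 = a5
  generalize (PowerSeries.X + PowerSeries.C (-(j : ℚ) * p)) ^ e = a6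
  generalize ∏ i ∈ Finset.range 4,
    (PowerSeries.X + PowerSeries.C (((i : ℚ) - j) * p) : PowerSeries ℚ) = a7
  generalize ∏ a ∈ (Finset.Icc 4 5 : Finset ℕ),
    (PowerSeries.X + PowerSeries.C (((a : ℚ) - j) * p) : PowerSeries ℚ) = a8
  ring

lemma norm_cF (hp100 : 100 ≤ p) : padicNorm p (cF p) = ((p : ℚ)⁻¹) ^ 4 := by
  have hpp : (0 : ℚ) < p := p_pos'
  have hf : ∀ a : ℕ, a ≤ 10 → padicNorm p (((a * p).factorial : ℕ) : ℚ) = ((p : ℚ)⁻¹) ^ a := by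
    intro a ha
    have h1 : a * p < p ^ 2 := by nlinarith
    rw [norm_factorial h1, Nat.mul_div_cancel _ (by omega : 0 < p)]
    simp
  unfold cF
  rw [padicNorm.div]
  push_cast
  rw [padicNorm.mul, padicNorm_pow', hf 7 (by norm_num), hf 4 (by norm_num), hf 6 (by norm_num)]
  field_simp

end H2y

open H2y
open Pool.Agent.H336R2.HD.H2aux (coeff_mul_UC)

theorem H2 : StH2 := by
  intro p _ hp r hr1 hr2
  have hp0 : (p : ℚ) ≠ 0 := p_pos'.ne'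
  have hpp : (0 : ℚ) < p := p_pos'
  have hcst := norm_cF hp
  refine ⟨cF p / (p : ℚ) ^ 4 * wM p r, ?_, ?_⟩
  · have h0 := (GM_UC hr1 hr2 0).1
    rw [padicNorm.mul, padicNorm.div, hcst, h0, padicNorm_pow', padicNorm.padicNorm_p_of_prime, mul_one]
    exact div_self (by positivity)
  · intro e j i he hj3 hj9 hi1 hi2
    unfold pa
    rw [if_pos hi2]
    unfold pfc
    rw [factor2 hp hr1 hr2 hj3 hj9 e, PowerSeries.coeff_C_mul]
    have h1 := coeff_mul_UC (p := p) (by positivity) (FM_PB hp hj3 hj9 e) (GM_UC hr1 hr2 j) (2 - i)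
    have h2 := FM_coeff hp0 hj3 hj9 e (2 - i)
    show padicNorm p (cF p * PowerSeries.coeff (2 - i) (FM p j e * GM p r (r + j * p)) /
      (p : ℚ) ^ (i + e) - _) ≤ _
    set X1 := PowerSeries.coeff (2 - i) (FM p j e * GM p r (r + j * p)) with hX1
    set X2 := PowerSeries.coeff (2 - i) (FM p j e) with hX2
    set q : ℚ := (p : ℚ)⁻¹ with hq
    have hq0 : q ≠ 0 := inv_ne_zero hp0
    have hqpos : 0 < q := inv_pos.2 hpp
    have hpq : (p : ℚ) * q = 1 := mul_inv_cancel₀ hp0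
    have hpow : (p : ℚ) ^ 10 * q ^ 12 * (p : ℚ) ^ e * q ^ (2 - i) * (p : ℚ) ^ 4 =
        (p : ℚ) ^ (i + e) := by
      have h3 : q ^ 12 * q ^ (2 - i) * (p : ℚ) ^ 14 = (p : ℚ) ^ i := by
        have h4 : (p : ℚ) ^ 14 = (p : ℚ) ^ 12 * (p : ℚ) ^ (2 - i) * (p : ℚ) ^ i := by
          rw [← pow_add, ← pow_add]; congr 1; omega
        rw [h4]
        calc q ^ 12 * q ^ (2 - i) * ((p : ℚ) ^ 12 * (p : ℚ) ^ (2 - i) * (p : ℚ) ^ i)
            = ((p : ℚ) * q) ^ 12 * ((p : ℚ) * q) ^ (2 - i) * (p : ℚ) ^ i := by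
              rw [mul_pow, mul_pow]; ring
          _ = (p : ℚ) ^ i := by rw [hpq, one_pow, one_pow, one_mul, one_mul]
      calc (p : ℚ) ^ 10 * q ^ 12 * (p : ℚ) ^ e * q ^ (2 - i) * (p : ℚ) ^ 4
          = (q ^ 12 * q ^ (2 - i) * (p : ℚ) ^ 14) * (p : ℚ) ^ e := by ring
        _ = (p : ℚ) ^ (i + e) := by rw [h3, pow_add]
    have h6 : cF p * X1 / (p : ℚ) ^ (i + e) -
        cF p / (p : ℚ) ^ 4 * wM p r * PowerSeries.coeff (2 - i) (ser j e) =
        cF p / (p : ℚ) ^ (i + e) * (X1 - X2 * wM p r) := by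
      rw [h2, mul_sub]
      congr 1
      · ring
      · rw [← hpow]
        have h7 : q ^ 12 ≠ 0 := by positivity
        have h8 : q ^ (2 - i) ≠ 0 := by positivity
        generalize q ^ 12 = c1 at *
        generalize q ^ (2 - i) = c2 at *
        field_simp
    rw [h6, padicNorm.mul, padicNorm.div, hcst, padicNorm_pow', padicNorm.padicNorm_p_of_prime]
    calc q ^ 4 / q ^ (i + e) * padicNorm p (X1 - X2 * wM p r)
        ≤ q ^ 4 / q ^ (i + e) *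
          (q ^ 10 * (p : ℚ) ^ 12 * q ^ e * q * (p : ℚ) ^ (2 - i)) :=
          mul_le_mul_of_nonneg_left h1 (by positivity)
      _ = q := by
        have h9 : (p : ℚ) ^ 12 * (p : ℚ) ^ (2 - i) * q ^ 14 = q ^ i := by
          have h4 : q ^ 14 = q ^ 12 * q ^ (2 - i) * q ^ i := by
            rw [← pow_add, ← pow_add]; congr 1; omega
          rw [h4]
          calc (p : ℚ) ^ 12 * (p : ℚ) ^ (2 - i) * (q ^ 12 * q ^ (2 - i) * q ^ i)
              = ((p : ℚ) * q) ^ 12 * ((p : ℚ) * q) ^ (2 - i) * q ^ i := by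
                rw [mul_pow, mul_pow]; ring
            _ = q ^ i := by rw [hpq, one_pow, one_pow, one_mul, one_mul]
        have h10 : q ^ (i + e) ≠ 0 := by positivity
        rw [div_mul_eq_mul_div, div_eq_iff h10]
        calc q ^ 4 * (q ^ 10 * (p : ℚ) ^ 12 * q ^ e * q * (p : ℚ) ^ (2 - i))
            = ((p : ℚ) ^ 12 * (p : ℚ) ^ (2 - i) * q ^ 14) * (q ^ e * q) := by ring
          _ = q * q ^ (i + e) := by
            rw [h9, pow_add]; ring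

end

end Pool.Agent.W962.Z3
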